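import Pool.Agent.U29.CY.Stm

/-! Project CY, package TAIL (helper981): no cycles far out. -/

set_option autoImplicit false

namespace Pool.Agent.U981.CY

open Finset MeasureTheory Filter Pool.Agent.U762.RP Pool.Agent.U29.CY

theorem decay (lam A y : ℝ) (hl0 : 0 < lam) (hl1 : lam < 1) (hA : 0 < A) (hy : 2 ≤ y) :
    lam ^ ⌊((A + 4) / (-Real.log lam)) * Real.log y⌋₊ * y ≤ lam⁻¹ * y ^ (-(A + 2)) := by
  have hlog : Real.log lam < 0 := Real.log_neg hl0 hl1
  have hy0 : 0 < y := by linarith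
  have hy1 : 1 ≤ y := by linarith
  have h1 : ((A + 4) / (-Real.log lam)) * Real.log y - 1 ≤
      (⌊((A + 4) / (-Real.log lam)) * Real.log y⌋₊ : ℝ) := (Nat.sub_one_lt_floor _).le
  have h2 : lam ^ ⌊((A + 4) / (-Real.log lam)) * Real.log y⌋₊ ≤ lam⁻¹ * y ^ (-(A + 4)) := by
    calc lam ^ ⌊((A + 4) / (-Real.log lam)) * Real.log y⌋₊
        = lam ^ ((⌊((A + 4) / (-Real.log lam)) * Real.log y⌋₊ : ℕ) : ℝ) :=
          (Real.rpow_natCast _ _).symm
      _ ≤ lam ^ (((A + 4) / (-Real.log lam)) * Real.log y - 1) :=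
          Real.rpow_le_rpow_of_exponent_ge hl0 hl1.le h1
      _ = lam⁻¹ * y ^ (-(A + 4)) := by
          rw [Real.rpow_sub hl0, Real.rpow_one, Real.rpow_def_of_pos hl0, Real.rpow_def_of_pos hy0]
          have h4 : Real.log lam ≠ 0 := hlog.ne
          have h3 : Real.log lam * ((A + 4) / -Real.log lam * Real.log y) =
              Real.log y * (-(A + 4)) := by
            field_simp
          rw [h3]
          field_simp
  calc _ ≤ (lam⁻¹ * y ^ (-(A + 4))) * y := mul_le_mul_of_nonneg_right h2 hy0.le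
    _ = lam⁻¹ * y ^ (-(A + 3)) := by
        rw [mul_assoc]
        congr 1
        nth_rewrite 2 [← Real.rpow_one y]
        rw [← Real.rpow_add hy0]
        congr 1
        ring
    _ ≤ lam⁻¹ * y ^ (-(A + 2)) := by
        apply mul_le_mul_of_nonneg_left _ (inv_pos.2 hl0).le
        exact Real.rpow_le_rpow_of_exponent_le hy1 (by linarith)

theorem exists_min (f : ℤ → ℤ) (y : ℤ) : ∃ i₀ : ℕ, ∀ i : ℕ, |f^[i₀] y| ≤ |f^[i] y| := by
  have hex : ∃ n : ℕ, ∃ i : ℕ, (f^[i] y).natAbs = n := ⟨_, 0, rfl⟩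
  classical
  obtain ⟨i₀, h₀⟩ := Nat.find_spec hex
  refine ⟨i₀, fun i => ?_⟩
  have h1 : Nat.find hex ≤ (f^[i] y).natAbs := Nat.find_min' hex ⟨i, rfl⟩
  rw [← h₀] at h1
  rw [Int.abs_eq_natAbs, Int.abs_eq_natAbs]
  exact_mod_cast h1

theorem t_TAIL : S_LEN → S_SUM → S_BDD → S_TAIL := by
  intro hL hS hB d m r hR B μ _ hμ M C lam hM hC hl0 hl1 hLong A hA
  have hlog : Real.log lam < 0 := Real.log_neg hl0 hl1
  have hA' : 0 < (A + 4) / (-Real.log lam) := div_pos (by linarith) (by linarith)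
  obtain ⟨S₀, hS₀, hlen⟩ := hL d m r hR B _ hA'
  obtain ⟨C₁, hC₁, hsum⟩ := hS A hA.le
  set N₀ : ℝ := max S₀ M with hN₀
  have hN₀1 : 1 ≤ N₀ := hS₀.trans (le_max_left _ _)
  refine ⟨max (C * lam⁻¹ * C₁) (N₀ ^ A), fun N hN => ?_⟩
  have hN0 : 0 < N := by linarith
  rcases lt_or_ge N N₀ with hlt | hge
  · -- trivial bound
    refine le_trans prob_le_one ?_
    rw [← ENNReal.ofReal_one]
    apply ENNReal.ofReal_le_ofReal
    have h1 : (1 : ℝ) = N ^ A * N ^ (-A) := by
      rw [← Real.rpow_add hN0, add_neg_cancel, Real.rpow_zero]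
    rw [h1]
    apply mul_le_mul_of_nonneg_right _ (Real.rpow_nonneg hN0.le _)
    exact (Real.rpow_le_rpow hN0.le hlt.le hA.le).trans (le_max_right _ _)
  · have hNS : S₀ ≤ N := (le_max_left _ _).trans hge
    have hNM : M ≤ N := (le_max_right _ _).trans hge
    set P : Measure (ℤ → ℤ) := Measure.infinitePi fun _ : ℤ => μ with hP
    set Lx : ℤ → ℕ := fun x => ⌊((A + 4) / (-Real.log lam)) * Real.log (2 + |(x : ℝ)|)⌋₊ with hLx
    classical
    set U : ℤ → Set (ℤ → ℤ) := fun x =>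
      if N ≤ |(x : ℝ)| then {ω | Long d m r M (Lx x) x ω} else ∅ with hU
    have h1 : P {ω | ∃ x ∈ Function.periodicPts (stp d m r ω),
        ∀ i : ℕ, N ≤ |(((stp d m r ω)^[i] x : ℤ) : ℝ)|} ≤ P (⋃ x, U x) := by
      apply measure_mono_ae
      filter_upwards [hB B μ hμ] with ω hω hev
      obtain ⟨y, hy, hyN⟩ := hev
      set f := stp d m r ω with hf
      obtain ⟨i₀, hi₀⟩ := exists_min f y
      have hper : f^[i₀] y ∈ Function.periodicPts f := by
        obtain ⟨n, hn, hn2⟩ := hy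
        exact ⟨n, hn, hn2.apply_iterate i₀⟩
      have hmin : ∀ i : ℕ, |f^[i₀] y| ≤ |f^[i] (f^[i₀] y)| := by
        intro i
        rw [← Function.iterate_add_apply]
        exact hi₀ _
      have hNx : N ≤ |((f^[i₀] y : ℤ) : ℝ)| := hyN i₀
      have h2 := hlen ω hω (f^[i₀] y) hper hmin (hNS.trans hNx)
      refine Set.mem_iUnion.2 ⟨f^[i₀] y, ?_⟩
      rw [hU]
      simp only
      rw [if_pos hNx]
      refine ⟨fun i _ => ?_, fun i j hij hj h3 => ?_⟩
      · rw [← hf, ← Function.iterate_add_apply]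
        exact hNM.trans (hyN _)
      · have h4 : j < Function.minimalPeriod f (f^[i₀] y) := by
          have h5 : (j : ℝ) ≤ ((A + 4) / (-Real.log lam)) *
              Real.log (2 + |((f^[i₀] y : ℤ) : ℝ)|) := by
            refine le_trans (Nat.cast_le.2 hj) (Nat.floor_le ?_)
            apply mul_nonneg hA'.le
            apply Real.log_nonneg
            linarith [abs_nonneg ((f^[i₀] y : ℤ) : ℝ)]
          have h6 : ((j + 1 : ℕ) : ℝ) ≤ (Function.minimalPeriod f (f^[i₀] y) : ℝ) := by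
            push_cast
            linarith
          exact_mod_cast h6
        have h7 := Function.iterate_injOn_Iio_minimalPeriod (f := f) (x := f^[i₀] y)
          (Set.mem_Iio.2 (hij.trans h4)) (Set.mem_Iio.2 h4) h3
        omega
    have h2 : ∀ x, P (U x) ≤ ENNReal.ofReal (C * lam⁻¹) *
        (if N ≤ |(x : ℝ)| then ENNReal.ofReal ((2 + |(x : ℝ)|) ^ (-(A + 2))) else 0) := by
      intro x
      rw [hU]
      simp only
      split_ifs with h3
      · refine (hLong _ x).trans ?_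
        rw [← ENNReal.ofReal_mul (by positivity)]
        apply ENNReal.ofReal_le_ofReal
        have hy : (2 : ℝ) ≤ 2 + |(x : ℝ)| := by linarith [abs_nonneg (x : ℝ)]
        have h4 := decay lam A (2 + |(x : ℝ)|) hl0 hl1 hA hy
        calc C * lam ^ Lx x * (1 + |(x : ℝ)|) ≤ C * lam ^ Lx x * (2 + |(x : ℝ)|) := by
              apply mul_le_mul_of_nonneg_left _ (by positivity)
              linarith
          _ = C * (lam ^ Lx x * (2 + |(x : ℝ)|)) := by ring
          _ ≤ C * (lam⁻¹ * (2 + |(x : ℝ)|) ^ (-(A + 2))) := mul_le_mul_of_nonneg_left h4 hC.le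
          _ = C * lam⁻¹ * (2 + |(x : ℝ)|) ^ (-(A + 2)) := by ring
      · simp
    calc _ ≤ P (⋃ x, U x) := h1
      _ ≤ ∑' x, P (U x) := measure_iUnion_le _
      _ ≤ ∑' x : ℤ, ENNReal.ofReal (C * lam⁻¹) *
        (if N ≤ |(x : ℝ)| then ENNReal.ofReal ((2 + |(x : ℝ)|) ^ (-(A + 2))) else 0) :=
          ENNReal.tsum_le_tsum h2
      _ = ENNReal.ofReal (C * lam⁻¹) * ∑' x : ℤ,
        (if N ≤ |(x : ℝ)| then ENNReal.ofReal ((2 + |(x : ℝ)|) ^ (-(A + 2))) else 0) :=
          ENNReal.tsum_mul_left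
      _ ≤ ENNReal.ofReal (C * lam⁻¹) * ENNReal.ofReal (C₁ * N ^ (-A)) :=
          mul_le_mul' le_rfl (hsum N hN)
      _ = ENNReal.ofReal (C * lam⁻¹ * C₁ * N ^ (-A)) := by
          rw [← ENNReal.ofReal_mul (by positivity)]
          congr 1
          ring
      _ ≤ _ := by
          apply ENNReal.ofReal_le_ofReal
          exact mul_le_mul_of_nonneg_right (le_max_left _ _) (Real.rpow_nonneg hN0.le _)

end Pool.Agent.U981.CY
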